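import Pool.Agent.H37.CNS.Stmts

/-!
# Row LBQ: lower bound for the conductor of a quotient
-/

set_option autoImplicit false

namespace Pool.CND

open Finset

namespace LBQ99

variable {k L G : Type} [Field k] [Field L] [Algebra k L] [Group G]

theorem one_mem_ram (P : Place k L) (ρ : G →* (L ≃ₐ[k] L)) (i : ℕ) : (1 : G) ∈ ram P ρ i := by
  refine ⟨?_, fun u _ _ => Or.inl ?_⟩
  · rw [map_one]
    exact Fixes.one
  · rw [map_one, AlgEquiv.one_apply]

/-- the conjugate place -/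
def conj (P : Place k L) (f : L ≃ₐ[k] L) : Place k L where
  ord z := P.ord (f z)
  ord_mul x y hx hy := by
    rw [map_mul]
    exact P.ord_mul _ _ (by simpa using hx) (by simpa using hy)
  ord_add x y hx hy hxy := by
    have h : f x + f y ≠ 0 := by
      rw [← map_add]
      exact fun h0 => hxy ((map_eq_zero_iff f f.injective).1 h0)
    rw [map_add]
    exact P.ord_add _ _ (by simpa using hx) (by simpa using hy) h
  ord_surj := by
    obtain ⟨x, hx, h1⟩ := P.ord_surj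
    exact ⟨f.symm x, by simpa using hx, by simpa using h1⟩
  ord_const c hc := by
    rw [AlgEquiv.commutes]
    exact P.ord_const c hc
  residue x hx h0 := by
    obtain ⟨c, hc⟩ := P.residue (f x) (by simpa using hx) h0
    refine ⟨c, ?_⟩
    rcases hc with hc | hc
    · left
      apply f.injective
      rw [hc, AlgEquiv.commutes]
    · right
      rw [map_sub, AlgEquiv.commutes]
      exact hc

theorem mem_ram_zero (P : Place k L) (ρ : G →* (L ≃ₐ[k] L)) (g : G) (h : Fixes P (ρ g)) :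
    g ∈ ram P ρ 0 := by
  refine ⟨h, fun u hu h1 => ?_⟩
  by_cases h0 : ρ g u = u
  · exact Or.inl h0
  · right
    have h2 : P.Ge (ρ g u - u) 1 := by
      refine P.ge_sub (Or.inr ?_) (Or.inr ?_)
      · rw [h u hu, h1]
      · rw [h1]
    have h3 := h2.resolve_left (sub_ne_zero.2 h0)
    push_cast
    linarith

end LBQ99

open LBQ99

theorem lbq_thm (hINF : S_INF) (hLON : S_LON) (hTRV : S_TRV) (hWLD : S_WLD) (hSUB : S_SUB) :
    S_LBQ := by
  intro p k L L₁ G G₁ _ _ _ _ _ _ _ _ _ _ ρ ρ₁ π j t₁ P P₁ e m c₁ hp hcp hc hc1 hQ ht he hord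
    hm hcond hcne
  obtain ⟨l₁, hl1, hl2, hl3⟩ := hcond
  -- `1 ≤ l₁`
  have hl : 1 ≤ l₁ := by
    by_contra h
    have h0 : l₁ = 0 := by omega
    subst h0
    apply hcne
    rw [hl3]
    simp
  -- an element of the last group
  obtain ⟨g₁, hg1, hg1ne⟩ : ∃ g₁ ∈ ram P₁ ρ₁ l₁, g₁ ≠ 1 := by
    by_contra hcon
    push Not at hcon
    apply hl1
    ext x
    constructor
    · intro hx
      exact hcon x hx
    · intro hx
      rw [Set.mem_singleton_iff] at hx
      rw [hx]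
      exact one_mem_ram P₁ ρ₁ l₁
  have hg11 : g₁ ∈ ram P₁ ρ₁ 1 := by
    refine ⟨hg1.1, fun u hu h1 => ?_⟩
    rcases hg1.2 u hu h1 with h | h
    · exact Or.inl h
    · right
      have : (1 : ℤ) ≤ l₁ := by exact_mod_cast hl
      push_cast
      linarith
  obtain ⟨W₁, I₁, hW1, hI1, hWI1, ⟨n₁, hn1⟩, -⟩ := hWLD p k L₁ G₁ P₁ ρ₁ hp hcp hc1.inj
  have hg1p : orderOf g₁ ∣ p ^ n₁ := by
    have h1 : g₁ ∈ W₁ := by
      have : g₁ ∈ (W₁ : Set G₁) := by rw [hW1]; exact hg11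
      exact this
    have h2 : (⟨g₁, h1⟩ : W₁) ^ Nat.card W₁ = 1 := pow_card_eq_one'
    rw [hn1] at h2
    apply orderOf_dvd_of_pow_eq_one
    have h3 := congrArg Subtype.val h2
    simpa using h3
  -- a lift fixing `P`
  obtain ⟨g, hg⟩ := hQ.surj g₁
  obtain ⟨c, hcC, hcz⟩ := hTRV k L G ρ π.ker P (conj P (ρ g)) (by
    intro z hz hfix h0
    obtain ⟨y, rfl⟩ := hQ.fix z (fun a ha => hfix a (MonoidHom.mem_ker.2 ha))
    have hy : y ≠ 0 := by
      rintro rfl
      exact hz (map_zero j)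
    change P.ord (ρ g (j y)) = 0
    have hy2 : ρ₁ (π g) y ≠ 0 := by simpa using hy
    rw [hQ.eqv, ← hord _ hy2, hg, hg1.1 y hy, hord y hy]
    exact h0)
  have hc' : π c = 1 := MonoidHom.mem_ker.1 hcC
  set h : G := g * c⁻¹ with hh
  have hπh : π h = g₁ := by
    rw [hh, map_mul, map_inv, hc', inv_one, mul_one, hg]
  have hfix : Fixes P (ρ h) := by
    intro z hz
    have hz' : ρ c⁻¹ z ≠ 0 := by simpa using hz
    have h1 := hcz (ρ c⁻¹ z) hz'
    have h2 : (conj P (ρ g)).ord (ρ c⁻¹ z) = P.ord (ρ h z) := by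
      change P.ord (ρ g (ρ c⁻¹ z)) = _
      rw [hh, map_mul, AlgEquiv.mul_apply]
    rw [← h2, h1, ← AlgEquiv.mul_apply, ← map_mul, mul_inv_cancel, map_one, AlgEquiv.one_apply]
  -- the power in the wild group
  obtain ⟨W, I, hW, hI, hWI, ⟨n, hn⟩, ⟨m', hm', hcard⟩⟩ := hWLD p k L G P ρ hp hcp hc.inj
  obtain ⟨W', I', hW', hI', -, hnorm⟩ := hSUB k L G P ρ
  have hWW : W' = W := SetLike.coe_injective (hW'.trans hW.symm)
  have hII : I' = I := SetLike.coe_injective (hI'.trans hI.symm)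
  subst hWW
  subst hII
  have hhI : h ∈ I' := by
    have : h ∈ (I' : Set G) := by
      rw [hI]
      exact mem_ram_zero P ρ h hfix
    exact this
  have hnormal : (W'.subgroupOf I').Normal := by
    refine ⟨fun a ha b => ?_⟩
    rw [Subgroup.mem_subgroupOf] at ha ⊢
    exact hnorm b.1 b.2 a.1 ha
  have hidx : (W'.subgroupOf I').index = m' := by
    have h1 := Subgroup.card_mul_index (W'.subgroupOf I')
    have h2 : Nat.card (W'.subgroupOf I') = Nat.card W' :=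
      Nat.card_congr (Subgroup.subgroupOfEquivOfLe hWI).toEquiv
    rw [h2, hcard, mul_comm m'] at h1
    exact Nat.eq_of_mul_eq_mul_left Nat.card_pos h1
  have hwW : h ^ m' ∈ W' := by
    have h1 := Subgroup.pow_index_mem (W'.subgroupOf I') ⟨h, hhI⟩
    rw [hidx, Subgroup.mem_subgroupOf] at h1
    simpa using h1
  set w : G := h ^ m' with hwdef
  have hπw : π w ≠ 1 := by
    intro h1
    rw [hwdef, map_pow, hπh] at h1
    have h2 := orderOf_dvd_of_pow_eq_one h1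
    have h3 : Nat.Coprime (p ^ n₁) m' := Nat.Coprime.pow_left n₁ ((Nat.Prime.coprime_iff_not_dvd hp).2 hm')
    have h4 : orderOf g₁ ∣ 1 := by
      have := Nat.dvd_gcd hg1p h2
      rwa [Nat.Coprime.gcd_eq_one h3] at this
    rw [Nat.dvd_one, orderOf_eq_one_iff] at h4
    exact hg1ne h4
  have hwram : w ∈ ram P ρ 1 := by
    rw [← hW]
    exact hwW
  have hwne : w ≠ 1 := by
    rintro h1
    apply hπw
    rw [h1, map_one]
  have hbw := hm w hwram hwne
  -- the uniformiser of `P₁` moved the least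
  have hfix1 : Fixes P₁ (ρ₁ (π w)) := by
    intro z hz
    have hz2 : ρ₁ (π w) z ≠ 0 := by simpa using hz
    have hjz : j z ≠ 0 := by simpa using hz
    have h1 := hord z hz
    have h2 := hord _ hz2
    rw [← hQ.eqv, hwram.1 _ hjz, ← h1] at h2
    have he0 : (e : ℤ) ≠ 0 := by
      have : 0 < e := he
      exact_mod_cast this.ne'
    exact mul_left_cancel₀ he0 h2
  obtain ⟨u, hu, hu1, hune, huord⟩ : ∃ u : L₁, u ≠ 0 ∧ P₁.ord u = 1 ∧ ρ₁ (π w) u ≠ u ∧
      P₁.ord (ρ₁ (π w) u - u) < (l₁ : ℤ) + 2 := by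
    by_contra hcon
    push Not at hcon
    have h1 : π w ∈ ram P₁ ρ₁ (l₁ + 1) := by
      refine ⟨hfix1, fun u hu hu1 => ?_⟩
      by_cases h0 : ρ₁ (π w) u = u
      · exact Or.inl h0
      · right
        have := hcon u hu hu1 h0
        push_cast
        linarith
    rw [hl2, Set.mem_singleton_iff] at h1
    exact hπw h1
  have hb1 : P.Ge (ρ w P.pi - P.pi) ((m : ℤ) + 1) := by
    right
    unfold Place.b at hbw
    linarith
  have hju : j u ≠ 0 := by simpa using hu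
  have h5 := (hLON k L P (ρ w) P.pi m hwram.1 P.pi_ne P.ord_pi (by positivity) hb1 (j u)).resolve_right
    hju
  have hd : ρ₁ (π w) u - u ≠ 0 := sub_ne_zero.2 hune
  rw [hQ.eqv, ← map_sub] at h5
  have hjd : j (ρ₁ (π w) u - u) ≠ 0 := by
    rw [Ne, map_eq_zero_iff j j.injective]
    exact hd
  have h6 := h5.resolve_left hjd
  rw [← hord _ hd, ← hord u hu, hu1, mul_one] at h6
  have hel : (m : ℤ) ≤ e * l₁ := by
    have h7 : P₁.ord (ρ₁ (π w) u - u) ≤ (l₁ : ℤ) + 1 := by linarith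
    have he1 : (0 : ℤ) ≤ e := by positivity
    have h8 : (e : ℤ) * P₁.ord (ρ₁ (π w) u - u) ≤ e * ((l₁ : ℤ) + 1) :=
      mul_le_mul_of_nonneg_left h7 he1
    linarith
  -- `e ≤ |G|`
  have heG : e ≤ Nat.card G := by
    have h1 := hINF k L G ρ (j t₁) P I' hc ht hI
    have ht0 : t₁ ≠ 0 := by
      rintro rfl
      exact hc1.trans (isAlgebraic_zero)
    have h2 := hord t₁ ht0
    rw [h1] at h2
    have h3 : (e : ℤ) ∣ (Nat.card I' : ℤ) := by
      rw [← dvd_neg, ← h2]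
      exact dvd_mul_right _ _
    have h4 : e ∣ Nat.card I' := by exact_mod_cast h3
    exact (Nat.le_of_dvd Nat.card_pos h4).trans (Subgroup.card_le_card_group I')
  -- the conductor
  have hc0 : (0 : ℚ) ≤ c₁ := by
    rw [hl3]
    positivity
  have hsum : (l₁ : ℚ) ≤ ∑ i ∈ Icc 1 l₁, ((ram P₁ ρ₁ i).ncard : ℚ) := by
    have h1 : ∀ i ∈ Icc 1 l₁, (1 : ℚ) ≤ ((ram P₁ ρ₁ i).ncard : ℚ) := by
      intro i _
      have h2 : 0 < (ram P₁ ρ₁ i).ncard :=
        (Set.ncard_pos (Set.toFinite _)).2 ⟨1, one_mem_ram P₁ ρ₁ i⟩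
      exact_mod_cast h2
    have h2 := Finset.card_nsmul_le_sum (Icc 1 l₁) (fun i => ((ram P₁ ρ₁ i).ncard : ℚ)) 1 h1
    rw [Nat.card_Icc, nsmul_eq_mul, mul_one] at h2
    simpa using h2
  have hr0 : 0 < (ram P₁ ρ₁ 0).ncard :=
    (Set.ncard_pos (Set.toFinite _)).2 ⟨1, one_mem_ram P₁ ρ₁ 0⟩
  have hr0' : (0 : ℚ) < ((ram P₁ ρ₁ 0).ncard : ℚ) := by exact_mod_cast hr0
  have hr1 : ((ram P₁ ρ₁ 0).ncard : ℚ) ≤ (Nat.card G : ℚ) := by
    have h1 : (ram P₁ ρ₁ 0).ncard ≤ Nat.card G₁ := by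
      rw [← Set.ncard_univ]
      exact Set.ncard_le_ncard (Set.subset_univ _) (Set.toFinite _)
    have h2 : Nat.card G₁ ≤ Nat.card G := Nat.card_le_card_of_surjective π hQ.surj
    exact_mod_cast h1.trans h2
  have hl4 : (l₁ : ℚ) ≤ c₁ * (Nat.card G : ℚ) := by
    have h1 : c₁ * ((ram P₁ ρ₁ 0).ncard : ℚ) = ∑ i ∈ Icc 1 l₁, ((ram P₁ ρ₁ i).ncard : ℚ) := by
      rw [hl3]
      field_simp
    calc (l₁ : ℚ) ≤ c₁ * ((ram P₁ ρ₁ 0).ncard : ℚ) := by rw [h1]; exact hsum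
      _ ≤ c₁ * (Nat.card G : ℚ) := mul_le_mul_of_nonneg_left hr1 hc0
  have h9 : (m : ℚ) ≤ (e : ℚ) * l₁ := by exact_mod_cast hel
  have h10 : (e : ℚ) ≤ (Nat.card G : ℚ) := by exact_mod_cast heG
  calc (m : ℚ) ≤ (e : ℚ) * l₁ := h9
    _ ≤ (Nat.card G : ℚ) * (c₁ * (Nat.card G : ℚ)) :=
        mul_le_mul h10 hl4 (by positivity) (by positivity)
    _ = c₁ * (Nat.card G : ℚ) ^ 2 := by ring

end Pool.CND
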